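import Mathlib
import Pool.Agent.H215_GVAS.Final

/-!
Every reachability set `R_G(a)` of a one-dimensional grammar vector addition system, thin or not, is
semilinear.

Outline. A derivation of `b` from `a` is a tree with the counter values at its nodes. By Kruskal's
theorem these trees, with the rules and the values as labels, are well-quasi-ordered by embedding. If
the tree of `b` embeds in that of `b'`, then at each node of the first a context is inserted; such
insertions can be made one inside the other, because the differences of the values, before and after
the insertion, are nonnegative. So the differences `b' - b` form a submonoid of the natural numbers
(amalgamation), and the reachability set is a finite union of translates of such submonoids.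
-/

set_option autoImplicit false

namespace Pool.Agent.Results.MP_675cc6_lc.SemilinearSets

open H215_GVAS

/-- For every context-free grammar `g` with integer terminals and every natural number `a`, the
reachability set of `g` from `a` is semilinear. -/
theorem result (g : ContextFreeGrammar ℤ) (a : ℕ) : IsSemilinearSet (reachSet g a) :=
  semilinear_reach g a

end Pool.Agent.Results.MP_675cc6_lc.SemilinearSets
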